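import Mathlib

/-!
# MP_b69f9e_co: right closed repeats starting at prescribed positions

The bound `C (n + k log n)` fails: there are strings of length `n` and sets `P` of `k` positions
with `k log₂ n ≤ n` such that more than `C n` right closed repeats start in `P`.

The number of right closed repeats starting at `i` is the number of positions `i'` that are the
next occurrence of some factor starting at `i`. Given a string `X` of length `ℓ = 4 c` we form
`Y = X B₁ B₂ … B_{c-1}`, where `B_t = X[0..3c+t) s_t X[0..c-t-1)` and `s_t` is a new letter. For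
`i < c` the copies of `i` in `B_1, B_2, …` are all next occurrences of factors starting at `i`, and
there are `c (c - 1) ≈ |Y| / 4` such pairs; moreover every copy of `X` inherits the pairs of `X`.
So the density of pairs increases by a constant, while the density of `P` hardly changes.
-/

set_option autoImplicit false

namespace Pool.Agent.Results.MP_b69f9e_co.SuperLinear

/-- `i'` is the next occurrence, to the right of position `i`, of the factor `s[i..j]` in the string
`s[0] s[1] … s[n-1]`. -/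
def NextOcc (s : ℕ → ℕ) (n i j i' : ℕ) : Prop :=
  i < i' ∧ i' + (j - i) < n ∧ (∀ k, k ≤ j - i → s (i' + k) = s (i + k)) ∧
    ∀ i'', i < i'' → i'' < i' → ¬ ∀ k, k ≤ j - i → s (i'' + k) = s (i + k)

/-- `s[i..j]` is a right closed repeat of the string `s[0] s[1] … s[n-1]`. -/
def RightClosedRepeat (s : ℕ → ℕ) (n i j : ℕ) : Prop :=
  i ≤ j ∧ j < n ∧ ∃ i', NextOcc s n i j i' ∧
    (i' + (j - i) + 1 = n ∨ s (j + 1) ≠ s (i' + (j - i) + 1))

/-- `i'` is the next occurrence of some factor starting at `i`. -/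
def NP (s : ℕ → ℕ) (n i i' : ℕ) : Prop :=
  i < i' ∧ ∃ len, 1 ≤ len ∧ i' + len ≤ n ∧ (∀ k < len, s (i' + k) = s (i + k)) ∧
    ∀ i'', i < i'' → i'' < i' → ∃ k < len, s (i'' + k) ≠ s (i + k)

theorem NP.mono {s : ℕ → ℕ} {n n' i i' : ℕ} (h : NP s n i i') (hn : n ≤ n') : NP s n' i i' := by
  obtain ⟨h1, len, h2, h3, h4⟩ := h
  exact ⟨h1, len, h2, by omega, h4⟩

theorem NP.lt {s : ℕ → ℕ} {n i i' : ℕ} (h : NP s n i i') : i' < n := by
  obtain ⟨h1, len, h2, h3, h4⟩ := h
  omega

theorem NP.shift {s x : ℕ → ℕ} {a n i i' : ℕ} (h : NP x n i i')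
    (hx : ∀ k < n, s (a + k) = x k) : NP s (a + n) (a + i) (a + i') := by
  obtain ⟨h1, len, h2, h3, h4, h5⟩ := h
  refine ⟨by omega, len, h2, by omega, fun k hk => ?_, fun i'' hi1 hi2 => ?_⟩
  · rw [add_assoc, add_assoc, hx _ (by omega), hx _ (by omega), h4 k hk]
  · obtain ⟨c, rfl⟩ : ∃ c, i'' = a + c := ⟨i'' - a, by omega⟩
    obtain ⟨k, hk, hne⟩ := h5 c (by omega) (by omega)
    refine ⟨k, hk, ?_⟩
    rwa [add_assoc, add_assoc, hx _ (by omega), hx _ (by omega)]

/-- The pairs starting in `P`. -/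
noncomputable def S (s : ℕ → ℕ) (P : Finset ℕ) (n : ℕ) : Finset (ℕ × ℕ) :=
  @Finset.filter _ (fun x => NP s n x.1 x.2) (Classical.decPred _) (P ×ˢ Finset.range n)

theorem mem_S {s : ℕ → ℕ} {P : Finset ℕ} {n : ℕ} {x : ℕ × ℕ} :
    x ∈ S s P n ↔ x.1 ∈ P ∧ NP s n x.1 x.2 := by
  simp only [S, Finset.mem_filter, Finset.mem_product, Finset.mem_range]
  constructor
  · rintro ⟨⟨h1, _⟩, h3⟩
    exact ⟨h1, h3⟩
  · rintro ⟨h1, h3⟩
    exact ⟨⟨h1, h3.lt⟩, h3⟩

theorem S_mono (s : ℕ → ℕ) (P : Finset ℕ) {n n' : ℕ} (h : n ≤ n') :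
    (S s P n).card ≤ (S s P n').card := by
  refine Finset.card_le_card fun x hx => ?_
  rw [mem_S] at hx ⊢
  exact ⟨hx.1, hx.2.mono h⟩

/-- Each pair gives a right closed repeat. -/
theorem exists_rc {s : ℕ → ℕ} {n i i' : ℕ} (h : NP s n i i') :
    ∃ j, RightClosedRepeat s n i j ∧ NextOcc s n i j i' := by
  classical
  obtain ⟨h1, len, h2, h3, h4, h5⟩ := h
  obtain ⟨L, hL⟩ : ∃ L, L = Nat.findGreatest
    (fun L => i' + L ≤ n ∧ ∀ k < L, s (i' + k) = s (i + k)) n := ⟨_, rfl⟩
  have hs := Nat.findGreatest_spec (P := fun L => i' + L ≤ n ∧ ∀ k < L, s (i' + k) = s (i + k))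
    (m := len) (n := n) (by omega) ⟨h3, h4⟩
  have hle := Nat.le_findGreatest (P := fun L => i' + L ≤ n ∧ ∀ k < L, s (i' + k) = s (i + k))
    (m := len) (n := n) (by omega) ⟨h3, h4⟩
  rw [← hL] at hs hle
  have hgr := Nat.findGreatest_is_greatest
    (P := fun L => i' + L ≤ n ∧ ∀ k < L, s (i' + k) = s (i + k)) (k := L + 1) (n := n)
    (by rw [← hL]; omega)
  obtain ⟨hs1, hs2⟩ := hs
  have e : i + L - 1 - i + 1 = L := by omega
  have hno : NextOcc s n i (i + L - 1) i' := by
    refine ⟨h1, by omega, fun k hk => hs2 k (by omega), fun i'' h6 h7 h8 => ?_⟩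
    obtain ⟨k, hk, hne⟩ := h5 i'' h6 h7
    exact hne (h8 k (by omega))
  refine ⟨i + L - 1, ⟨by omega, by omega, i', hno, ?_⟩, hno⟩
  rw [show i' + (i + L - 1 - i) + 1 = i' + L by omega, show i + L - 1 + 1 = i + L by omega]
  by_cases hn : i' + L = n
  · exact Or.inl hn
  · right
    intro heq
    refine hgr (by omega) ⟨by omega, fun k hk => ?_⟩
    rcases Nat.lt_or_ge k L with hk2 | hk2
    · exact hs2 k hk2
    · obtain rfl : k = L := by omega
      exact heq.symm

theorem S_le (s : ℕ → ℕ) (P : Finset ℕ) (n : ℕ) :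
    (S s P n).card ≤ Set.ncard {x : ℕ × ℕ | x.1 ∈ P ∧ RightClosedRepeat s n x.1 x.2} := by
  classical
  have hfin : {x : ℕ × ℕ | x.1 ∈ P ∧ RightClosedRepeat s n x.1 x.2}.Finite := by
    refine (Finset.finite_toSet (P ×ˢ Finset.range n)).subset ?_
    rintro ⟨i, j⟩ ⟨h1, h2⟩
    simp only [Finset.coe_product, Set.mem_prod, Finset.mem_coe, Finset.mem_range]
    exact ⟨h1, h2.2.1⟩
  have hg : ∀ x : ℕ × ℕ, ∃ j, x ∈ S s P n → RightClosedRepeat s n x.1 j ∧
      NextOcc s n x.1 j x.2 := by
    intro x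
    by_cases hx : x ∈ S s P n
    · obtain ⟨j, hj⟩ := exists_rc (mem_S.1 hx).2
      exact ⟨j, fun _ => hj⟩
    · exact ⟨0, fun h => absurd h hx⟩
  choose g hg using hg
  rw [← Set.ncard_coe_finset]
  refine Set.ncard_le_ncard_of_injOn (fun x => (x.1, g x)) ?_ ?_ hfin
  · intro x hx
    have hx' : x ∈ S s P n := hx
    exact ⟨(mem_S.1 hx').1, (hg x hx').1⟩
  · intro x hx y hy hxy
    have hx' : x ∈ S s P n := hx
    have hy' : y ∈ S s P n := hy
    simp only [Prod.mk.injEq] at hxy
    obtain ⟨h1, h2⟩ := hxy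
    have e1 := (hg x hx').2
    have e2 := (hg y hy').2
    rw [← h1, ← h2] at e2
    obtain ⟨a1, a2, a3, a4⟩ := e1
    obtain ⟨b1, b2, b3, b4⟩ := e2
    refine Prod.ext h1 ?_
    rcases lt_trichotomy x.2 y.2 with h | h | h
    · exact absurd a3 (b4 _ a1 h)
    · exact h
    · exact absurd b3 (a4 _ b1 h)

/-- Adding a copy of a prefix of `x` and a set `D` of pairs leading into it. -/
theorem S_ext {s x : ℕ → ℕ} {P Q : Finset ℕ} {a n : ℕ} {D : Finset (ℕ × ℕ)}
    (hx : ∀ k < n, s (a + k) = x k) (hP : ∀ p ∈ P, p < n → a + p ∈ Q)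
    (hD : ∀ y ∈ D, y ∈ S s Q (a + n) ∧ y.1 < a ∧ a ≤ y.2) :
    (S s Q a).card + (S x P n).card + D.card ≤ (S s Q (a + n)).card := by
  classical
  let f : ℕ × ℕ → ℕ × ℕ := fun y => (a + y.1, a + y.2)
  have hf : Function.Injective f := by
    rintro ⟨y1, y2⟩ ⟨z1, z2⟩ h
    simp only [f, Prod.mk.injEq] at h
    ext <;> simp <;> omega
  have hsub : S s Q a ∪ (S x P n).image f ∪ D ⊆ S s Q (a + n) := by
    intro y hy
    rw [Finset.mem_union, Finset.mem_union, Finset.mem_image] at hy
    rcases hy with (hy | ⟨z, hz, rfl⟩) | hy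
    · rw [mem_S] at hy ⊢
      exact ⟨hy.1, hy.2.mono (by omega)⟩
    · rw [mem_S] at hz ⊢
      have : z.1 < n := hz.2.1.trans hz.2.lt
      exact ⟨hP _ hz.1 this, hz.2.shift hx⟩
    · exact (hD y hy).1
  have hd1 : Disjoint (S s Q a) ((S x P n).image f) := by
    rw [Finset.disjoint_left]
    rintro y hy hz
    rw [Finset.mem_image] at hz
    obtain ⟨z, hz, rfl⟩ := hz
    have := (mem_S.1 hy).2.lt
    simp only [f] at this
    omega
  have hd2 : Disjoint (S s Q a ∪ (S x P n).image f) D := by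
    rw [Finset.disjoint_left]
    intro y hy hyD
    obtain ⟨-, h1, h2⟩ := hD y hyD
    rw [Finset.mem_union, Finset.mem_image] at hy
    rcases hy with hy | ⟨z, hz, rfl⟩
    · have := (mem_S.1 hy).2.lt
      omega
    · simp only [f] at h1
      omega
  have := Finset.card_le_card hsub
  rwa [Finset.card_union_of_disjoint hd2, Finset.card_union_of_disjoint hd1,
    Finset.card_image_of_injective _ hf] at this

/-- The new string. -/
def Y (X : ℕ → ℕ) (β c n : ℕ) : ℕ :=
  if n < 4 * c then X n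
  else if n % (4 * c) < 3 * c + n / (4 * c) then X (n % (4 * c))
  else if n % (4 * c) = 3 * c + n / (4 * c) then β + n / (4 * c)
  else X (n % (4 * c) - (3 * c + n / (4 * c)) - 1)

theorem dm {c t r : ℕ} (hr : r < 4 * c) :
    (t * (4 * c) + r) % (4 * c) = r ∧ (t * (4 * c) + r) / (4 * c) = t := by
  constructor
  · rw [mul_comm, Nat.mul_add_mod, Nat.mod_eq_of_lt hr]
  · rw [Nat.add_div_of_dvd_right (Dvd.intro_left _ rfl), Nat.div_eq_of_lt hr, add_zero,
      Nat.mul_div_cancel _ (by omega)]

theorem Y0 {X : ℕ → ℕ} {β c n : ℕ} (h : n < 4 * c) : Y X β c n = X n := by rw [Y, if_pos h]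

theorem not_lt' {c t r : ℕ} (ht : 1 ≤ t) : ¬ t * (4 * c) + r < 4 * c := by
  have : 1 * (4 * c) ≤ t * (4 * c) := Nat.mul_le_mul_right _ ht
  omega

theorem YA {X : ℕ → ℕ} {β c t r : ℕ} (ht : 1 ≤ t) (hr : r < 4 * c) (h : r < 3 * c + t) :
    Y X β c (t * (4 * c) + r) = X r := by
  rw [Y, if_neg (not_lt' ht), (dm hr).1, (dm hr).2, if_pos h]

theorem YS {X : ℕ → ℕ} {β c t : ℕ} (ht : 1 ≤ t) (hc : t < c) :
    Y X β c (t * (4 * c) + (3 * c + t)) = β + t := by
  have hr : 3 * c + t < 4 * c := by omega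
  rw [Y, if_neg (not_lt' ht), (dm hr).1, (dm hr).2, if_neg (by omega), if_pos rfl]

theorem YB {X : ℕ → ℕ} {β c t r : ℕ} (ht : 1 ≤ t) (hr : r < 4 * c) (h : 3 * c + t < r) :
    Y X β c (t * (4 * c) + r) = X (r - (3 * c + t) - 1) := by
  rw [Y, if_neg (not_lt' ht), (dm hr).1, (dm hr).2, if_neg (by omega), if_neg (by omega)]

theorem decomp (c n : ℕ) (hc : 0 < c) : ∃ t r, n = t * (4 * c) + r ∧ r < 4 * c :=
  ⟨n / (4 * c), n % (4 * c), by rw [mul_comm]; exact (Nat.div_add_mod _ _).symm,
    Nat.mod_lt _ (by omega)⟩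

/-- The invariant of the construction. -/
structure Good (X : ℕ → ℕ) (P : Finset ℕ) (j c β m B K : ℕ) : Prop where
  letters : ∀ n < 4 * c, X n < β
  sub : ∀ p ∈ P, p < 4 * c
  card : P.card ≤ K
  lce : ∀ p p' len, p < p' → p' + len ≤ 4 * c → (∀ k < len, X (p + k) = X (p' + k)) → len ≤ m
  count : ∀ n ≤ 4 * c, j * n ≤ 8 * (S X P n).card + B

section step

variable {X : ℕ → ℕ} {P : Finset ℕ} {j c β m B K : ℕ}

theorem Good.lce' (g : Good X P j c β m B K) {p p' len : ℕ} (hne : p ≠ p')
    (h1 : p + len ≤ 4 * c) (h2 : p' + len ≤ 4 * c) (h : ∀ k < len, X (p + k) = X (p' + k)) :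
    len ≤ m := by
  rcases lt_or_gt_of_ne hne with h3 | h3
  · exact g.lce p p' len h3 h2 h
  · exact g.lce p' p len h3 h1 fun k hk => (h k hk).symm

theorem t_lt {t r : ℕ} (h : t * (4 * c) + r < c * (4 * c)) : t < c := by
  by_contra hcon
  have : c * (4 * c) ≤ t * (4 * c) := Nat.mul_le_mul_right _ (by omega)
  omega

theorem Y_lt (g : Good X P j c β m B K) {n : ℕ} (hn : n < c * (4 * c)) : Y X β c n < β + c := by
  have hc : 0 < c := by
    rcases Nat.eq_zero_or_pos c with rfl | h
    · simp at hn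
    · exact h
  obtain ⟨t, r, rfl, hr⟩ := decomp c n hc
  have htc := t_lt hn
  rcases Nat.eq_zero_or_pos t with rfl | ht
  · rw [Y0 (by omega)]
    have := g.letters (0 * (4 * c) + r) (by omega)
    omega
  · rcases lt_trichotomy r (3 * c + t) with h | rfl | h
    · rw [YA ht hr h]
      have := g.letters r (by omega)
      omega
    · rw [YS ht htc]
      omega
    · rw [YB ht hr h]
      have := g.letters (r - (3 * c + t) - 1) (by omega)
      omega

theorem Y_unique (g : Good X P j c β m B K) {n t : ℕ} (hn : n < c * (4 * c)) (ht : 1 ≤ t)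
    (h : Y X β c n = β + t) : n = t * (4 * c) + (3 * c + t) := by
  have hc : 0 < c := by
    rcases Nat.eq_zero_or_pos c with rfl | h
    · simp at hn
    · exact h
  obtain ⟨t', r, rfl, hr⟩ := decomp c n hc
  have htc := t_lt hn
  rcases Nat.eq_zero_or_pos t' with rfl | ht'
  · rw [Y0 (by omega)] at h
    have := g.letters (0 * (4 * c) + r) (by omega)
    omega
  · rcases lt_trichotomy r (3 * c + t') with h1 | rfl | h1
    · rw [YA ht' hr h1] at h
      have := g.letters r (by omega)
      omega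
    · rw [YS ht' htc] at h
      obtain rfl : t' = t := by omega
      rfl
    · rw [YB ht' hr h1] at h
      have := g.letters (r - (3 * c + t') - 1) (by omega)
      omega

theorem Y_lce (g : Good X P j c β m B K) : ∀ p p' len, p < p' → p' + len ≤ c * (4 * c) →
    (∀ k < len, Y X β c (p + k) = Y X β c (p' + k)) → len ≤ 8 * c := by
  intro p p' len hp hlen h
  by_contra hcon
  have hc : 0 < c := by
    rcases Nat.eq_zero_or_pos c with rfl | h
    · simp at hlen
      omega
    · exact h
  obtain ⟨t, r, rfl, hr⟩ := decomp c p hc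
  have htc : t + 1 < c := by
    refine t_lt (c := c) (r := r) ?_
    have : (t + 1) * (4 * c) = t * (4 * c) + 4 * c := by ring
    omega
  have e : (t + 1) * (4 * c) = t * (4 * c) + 4 * c := by ring
  obtain ⟨k, hk⟩ : ∃ k, t * (4 * c) + r + k = (t + 1) * (4 * c) + (3 * c + (t + 1)) :=
    ⟨(t + 1) * (4 * c) + (3 * c + (t + 1)) - (t * (4 * c) + r), by omega⟩
  have h1 := h k (by omega)
  rw [hk, YS (by omega) htc] at h1
  have h2 := Y_unique g (by omega) (by omega) h1.symm
  omega

/-- The new pairs. -/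
theorem own (g : Good X P j c β m B K) (hm : m ≤ c) {t i : ℕ} (ht : 1 ≤ t) (htc : t < c)
    (hi : i < c) : NP (Y X β c) (t * (4 * c) + (3 * c + t)) i (t * (4 * c) + i) := by
  have e1 : 1 * (4 * c) ≤ t * (4 * c) := Nat.mul_le_mul_right _ ht
  refine ⟨by omega, 3 * c + t - i, by omega, by omega, fun k hk => ?_, fun i'' h1 h2 => ?_⟩
  · rw [add_assoc, YA ht (by omega) (by omega), Y0 (by omega)]
  · by_contra hcon
    push Not at hcon
    have hX : ∀ k < 3 * c + t - i, Y X β c (i'' + k) = X (i + k) := by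
      intro k hk
      rw [hcon k hk, Y0 (by omega)]
    have hβ : ∀ k < 3 * c + t - i, X (i + k) < β := fun k hk => g.letters _ (by omega)
    obtain ⟨t', r, rfl, hr⟩ := decomp c i'' (by omega)
    have ht't : t' ≤ t := by
      by_contra hcon
      have : (t + 1) * (4 * c) ≤ t' * (4 * c) := Nat.mul_le_mul_right _ (by omega)
      have e : (t + 1) * (4 * c) = t * (4 * c) + 4 * c := by ring
      omega
    have e2 : (t' + 1) * (4 * c) = t' * (4 * c) + 4 * c := by ring
    -- the part of the window in the next block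
    have next : r + (3 * c + t - i) > 4 * c → t' < t → 3 * c + t - i - (4 * c - r) ≤ m := by
      intro h3 h4
      by_contra h5
      have h6 : min (3 * c + t - i - (4 * c - r)) (3 * c) ≤ m := by
        refine g.lce' (p := i + (4 * c - r)) (p' := 0) (by omega) (by omega) (by omega) ?_
        intro k hk
        have h7 := hX (4 * c - r + k) (by omega)
        rw [show t' * (4 * c) + r + (4 * c - r + k) = (t' + 1) * (4 * c) + k by omega,
          YA (by omega) (by omega) (by omega)] at h7
        rw [zero_add, h7]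
        congr 1
        omega
      omega
    rcases Nat.eq_zero_or_pos t' with rfl | ht'
    · have h3 : min (3 * c + t - i) (4 * c - r) ≤ m := by
        refine g.lce' (p := i) (p' := r) (by omega) (by omega) (by omega) ?_
        intro k hk
        rw [← hX k (by omega), Y0 (by omega)]
        congr 1
        omega
      have h4 := next (by omega) (by omega)
      omega
    · rcases lt_trichotomy r (3 * c + t') with h3 | rfl | h3
      · have h5 : 3 * c + t' - r < 3 * c + t - i := by
          by_cases hri : r = i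
          · subst hri
            have : t' ≠ t := by
              rintro rfl
              omega
            omega
          · have h4 : min (3 * c + t - i) (3 * c + t' - r) ≤ m := by
              refine g.lce' (p := i) (p' := r) (Ne.symm hri) (by omega) (by omega) ?_
              intro k hk
              rw [← hX k (by omega), add_assoc, YA ht' (by omega) (by omega)]
            omega
        have h6 := hX _ h5
        rw [add_assoc, show r + (3 * c + t' - r) = 3 * c + t' by omega, YS ht' (by omega)] at h6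
        have := hβ _ h5
        omega
      · have h6 := hX 0 (by omega)
        rw [add_zero, YS ht' (by omega)] at h6
        have := hβ 0 (by omega)
        omega
      · have h4 : t' < t := by
          by_contra h5
          obtain rfl : t' = t := by omega
          omega
        have h5 := next (by omega) h4
        omega

/-- The new set of positions. -/
def Q (P : Finset ℕ) (c : ℕ) : Finset ℕ :=
  (Finset.range c ∪ (Finset.range c ×ˢ P).image (fun x => x.1 * (4 * c) + x.2) ∪
    (Finset.range c ×ˢ P).image (fun x => x.1 * (4 * c) + (3 * c + x.1 + 1 + x.2))).filter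
    (· < c * (4 * c))

theorem Q_card (P : Finset ℕ) (c : ℕ) : (Q P c).card ≤ c + 2 * c * P.card := by
  refine (Finset.card_filter_le _ _).trans ?_
  refine (Finset.card_union_le _ _).trans ?_
  have h1 := Finset.card_union_le (Finset.range c)
    ((Finset.range c ×ˢ P).image (fun x => x.1 * (4 * c) + x.2))
  have h2 : ((Finset.range c ×ˢ P).image (fun x : ℕ × ℕ => x.1 * (4 * c) + x.2)).card ≤
      c * P.card := by
    refine Finset.card_image_le.trans ?_
    rw [Finset.card_product, Finset.card_range]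
  have h3 : ((Finset.range c ×ˢ P).image
      (fun x : ℕ × ℕ => x.1 * (4 * c) + (3 * c + x.1 + 1 + x.2))).card ≤ c * P.card := by
    refine Finset.card_image_le.trans ?_
    rw [Finset.card_product, Finset.card_range]
  rw [Finset.card_range] at h1
  have : 2 * c * P.card = c * P.card + c * P.card := by ring
  omega

theorem lt_block {t n : ℕ} (h1 : t < c) (h2 : n < 4 * c) : t * (4 * c) + n < c * (4 * c) := by
  have : (t + 1) * (4 * c) ≤ c * (4 * c) := Nat.mul_le_mul_right _ h1
  have e : (t + 1) * (4 * c) = t * (4 * c) + 4 * c := by ring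
  omega

theorem memQ1 {i : ℕ} (h : i < c) : i ∈ Q P c := by
  have := lt_block (c := c) (t := 0) (n := i) (by omega) (by omega)
  simp only [Q, Finset.mem_filter, Finset.mem_union, Finset.mem_range]
  exact ⟨Or.inl (Or.inl h), by omega⟩

theorem memQ2 {t p : ℕ} (h : t < c) (hp : p ∈ P) (h2 : p < 4 * c) :
    t * (4 * c) + p ∈ Q P c := by
  simp only [Q, Finset.mem_filter, Finset.mem_union, Finset.mem_image, Finset.mem_product,
    Finset.mem_range]
  exact ⟨Or.inl (Or.inr ⟨(t, p), ⟨h, hp⟩, rfl⟩), lt_block h h2⟩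

theorem memQ3 {t p : ℕ} (h : t < c) (hp : p ∈ P) (h2 : 3 * c + t + 1 + p < 4 * c) :
    t * (4 * c) + (3 * c + t + 1 + p) ∈ Q P c := by
  simp only [Q, Finset.mem_filter, Finset.mem_union, Finset.mem_image, Finset.mem_product,
    Finset.mem_range]
  exact ⟨Or.inr ⟨(t, p), ⟨h, hp⟩, rfl⟩, lt_block h h2⟩

/-- Part A of a block, without the new pairs. -/
theorem partA {t r : ℕ} (ht : 1 ≤ t) (htc : t < c) (hr : r ≤ 3 * c + t) :
    (S (Y X β c) (Q P c) (t * (4 * c))).card + (S X P r).card ≤
      (S (Y X β c) (Q P c) (t * (4 * c) + r)).card := by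
  have := S_ext (s := Y X β c) (x := X) (P := P) (Q := Q P c) (a := t * (4 * c)) (n := r)
    (D := ∅) (fun k hk => YA ht (by omega) (by omega)) (fun p hp hpr => memQ2 htc hp (by omega))
    (by simp)
  simpa using this

/-- Part A of a block, with the new pairs. -/
theorem partA' (g : Good X P j c β m B K) (hm : m ≤ c) {t : ℕ} (ht : 1 ≤ t) (htc : t < c) :
    (S (Y X β c) (Q P c) (t * (4 * c))).card + (S X P (3 * c + t)).card + c ≤
      (S (Y X β c) (Q P c) (t * (4 * c) + (3 * c + t))).card := by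
  have e1 : 1 * (4 * c) ≤ t * (4 * c) := Nat.mul_le_mul_right _ ht
  have := S_ext (s := Y X β c) (x := X) (P := P) (Q := Q P c) (a := t * (4 * c))
    (n := 3 * c + t) (D := (Finset.range c).image fun i => (i, t * (4 * c) + i))
    (fun k hk => YA ht (by omega) (by omega)) (fun p hp hpr => memQ2 htc hp (by omega)) ?_
  · rwa [Finset.card_image_of_injective, Finset.card_range] at this
    intro a b hab
    simp only [Prod.mk.injEq] at hab
    exact hab.1
  · intro y hy
    rw [Finset.mem_image] at hy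
    obtain ⟨i, hi, rfl⟩ := hy
    rw [Finset.mem_range] at hi
    exact ⟨mem_S.2 ⟨memQ1 hi, own g hm ht htc hi⟩, by simp; omega, by simp⟩

/-- Part B of a block. -/
theorem partB {t r : ℕ} (ht : 1 ≤ t) (htc : t < c) (hr : 3 * c + t + 1 + r ≤ 4 * c) :
    (S (Y X β c) (Q P c) (t * (4 * c) + (3 * c + t))).card + (S X P r).card ≤
      (S (Y X β c) (Q P c) (t * (4 * c) + (3 * c + t + 1 + r))).card := by
  have := S_ext (s := Y X β c) (x := X) (P := P) (Q := Q P c)
    (a := t * (4 * c) + (3 * c + t + 1)) (n := r) (D := ∅) (fun k hk => by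
      rw [add_assoc, YB ht (by omega) (by omega)]
      congr 1
      omega) (fun p hp hpr => by
        rw [add_assoc]
        exact memQ3 htc hp (by omega)) (by simp)
  have h2 := S_mono (Y X β c) (Q P c) (n := t * (4 * c) + (3 * c + t))
    (n' := t * (4 * c) + (3 * c + t + 1)) (by omega)
  rw [add_assoc (t * (4 * c)) (3 * c + t + 1) r] at this
  simp only [Finset.card_empty, add_zero] at this
  omega

theorem full (g : Good X P j c β m B K) (hm : m ≤ c) {t : ℕ} (ht : 1 ≤ t) (htc : t ≤ c) :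
    j * (t * (4 * c)) + 8 * c * (t - 1) ≤
      8 * (S (Y X β c) (Q P c) (t * (4 * c))).card + (j + 2 * B) * t := by
  induction t with
  | zero => omega
  | succ t ih =>
    rcases Nat.eq_zero_or_pos t with rfl | ht0
    · have h1 := S_ext (s := Y X β c) (x := X) (P := P) (Q := Q P c) (a := 0) (n := 4 * c)
        (D := ∅) (fun k hk => by rw [zero_add, Y0 hk]) (fun p hp hpr => by
          have := memQ2 (c := c) (t := 0) (by omega) hp hpr
          simpa using this) (by simp)
      have h2 := g.count (4 * c) le_rfl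
      simp only [zero_add, Finset.card_empty, add_zero] at h1
      simp only [zero_add, one_mul, Nat.sub_self, mul_zero, add_zero, mul_one]
      omega
    · have ih := ih ht0 (by omega)
      have h1 := partA' g hm ht0 (by omega : t < c)
      have h2 := partB (X := X) (β := β) (P := P) (c := c) (t := t) (r := c - t - 1) ht0
        (by omega) (by omega)
      have h3 := g.count (3 * c + t) (by omega)
      have h4 := g.count (c - t - 1) (by omega)
      rw [show t * (4 * c) + (3 * c + t + 1 + (c - t - 1)) = (t + 1) * (4 * c) by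
        have : (t + 1) * (4 * c) = t * (4 * c) + 4 * c := by ring
        omega] at h2
      have e1 : j * ((t + 1) * (4 * c)) = j * (t * (4 * c)) + j * (3 * c + t) + j * (c - t - 1) + j := by
        have : 4 * c = (3 * c + t) + (c - t - 1) + 1 := by omega
        calc j * ((t + 1) * (4 * c)) = j * (t * (4 * c)) + j * (4 * c) := by ring
          _ = j * (t * (4 * c)) + j * ((3 * c + t) + (c - t - 1) + 1) := by rw [← this]
          _ = _ := by ring
      have e2 : (j + 2 * B) * (t + 1) = (j + 2 * B) * t + j + 2 * B := by ring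
      have e3 : 8 * c * (t + 1 - 1) = 8 * c * (t - 1) + 8 * c := by
        obtain ⟨u, rfl⟩ : ∃ u, t = u + 1 := ⟨t - 1, by omega⟩
        simp only [Nat.add_sub_cancel]
        ring
      rw [e1, e2, e3]
      omega

theorem Y_count (g : Good X P j c β m B K) (hm : m ≤ c) (hB : j + 2 * B ≤ 4 * c) :
    ∀ n ≤ c * (4 * c), (j + 1) * n ≤ 8 * (S (Y X β c) (Q P c) n).card + 16 * c := by
  intro n hn
  rcases Nat.eq_zero_or_pos c with rfl | hc
  · simp at hn
    subst hn
    simp
  obtain ⟨t, r, rfl, hr⟩ := decomp c n hc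
  have key : j * (t * (4 * c) + r) + 8 * c * (t - 1) ≤
      8 * (S (Y X β c) (Q P c) (t * (4 * c) + r)).card + (j + 2 * B) * (t + 1) := by
    have e2 : (j + 2 * B) * (t + 1) = (j + 2 * B) * t + j + 2 * B := by ring
    rcases Nat.eq_zero_or_pos t with rfl | ht0
    · have h1 := S_ext (s := Y X β c) (x := X) (P := P) (Q := Q P c) (a := 0) (n := r)
        (D := ∅) (fun k hk => by rw [zero_add, Y0 (by omega)]) (fun p hp hpr => by
          have := memQ2 (c := c) (t := 0) (by omega) hp (by omega : p < 4 * c)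
          simpa using this) (by simp)
      have h2 := g.count r (by omega)
      simp only [zero_add, Finset.card_empty, add_zero] at h1
      simp only [zero_mul, zero_add, zero_tsub, mul_zero, add_zero, mul_one]
      omega
    · have htc : t ≤ c := by
        by_contra hcon
        have : (c + 1) * (4 * c) ≤ t * (4 * c) := Nat.mul_le_mul_right _ (by omega)
        have e : (c + 1) * (4 * c) = c * (4 * c) + 4 * c := by ring
        omega
      have h0 := full g hm ht0 htc
      rcases Nat.eq_zero_or_pos r with rfl | hr0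
      · rw [add_zero, e2]
        omega
      have htc' : t < c := by
        rcases Nat.lt_or_ge t c with h | h
        · exact h
        · obtain rfl : t = c := by omega
          omega
      rcases Nat.lt_or_ge (3 * c + t) r with h | h
      · have h1 := partA' g hm ht0 htc'
        have h2 := partB (X := X) (β := β) (P := P) (c := c) (t := t) (r := r - (3 * c + t) - 1)
          ht0 htc' (by omega)
        have h3 := g.count (3 * c + t) (by omega)
        have h4 := g.count (r - (3 * c + t) - 1) (by omega)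
        rw [show 3 * c + t + 1 + (r - (3 * c + t) - 1) = r by omega] at h2
        have e1 : j * (t * (4 * c) + r) = j * (t * (4 * c)) + j * (3 * c + t) +
            j * (r - (3 * c + t) - 1) + j := by
          have : r = (3 * c + t) + (r - (3 * c + t) - 1) + 1 := by omega
          calc j * (t * (4 * c) + r) = j * (t * (4 * c)) + j * r := by ring
            _ = j * (t * (4 * c)) + j * ((3 * c + t) + (r - (3 * c + t) - 1) + 1) := by
              rw [← this]
            _ = _ := by ring
        rw [e1, e2]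
        omega
      · have h1 := partA (X := X) (β := β) (P := P) (c := c) ht0 htc' h
        have h3 := g.count r (by omega)
        rw [mul_add, e2]
        omega
  have h5 : (j + 2 * B) * (t + 1) ≤ 4 * c * (t + 1) := Nat.mul_le_mul_right _ hB
  have h6 : (j + 1) * (t * (4 * c) + r) = j * (t * (4 * c) + r) + (t * (4 * c) + r) := by ring
  rw [h6]
  rcases Nat.eq_zero_or_pos t with rfl | ht0
  · simp only [zero_tsub, mul_zero, zero_mul, zero_add, mul_one] at *
    omega
  · obtain ⟨u, rfl⟩ : ∃ u, t = u + 1 := ⟨t - 1, by omega⟩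
    simp only [Nat.add_sub_cancel] at *
    nlinarith

theorem step (g : Good X P j c β m B K) (hm : m ≤ c) (hB : j + 2 * B ≤ 4 * c) :
    Good (Y X β c) (Q P c) (j + 1) (c * c) (β + c) (8 * c) (16 * c) (c + 2 * c * K) := by
  have e : 4 * (c * c) = c * (4 * c) := by ring
  refine ⟨?_, ?_, ?_, ?_, ?_⟩
  · rw [e]
    exact fun n hn => Y_lt g hn
  · rw [e]
    intro p hp
    exact (Finset.mem_filter.1 hp).2
  · refine (Q_card P c).trans ?_
    have := Nat.mul_le_mul_left (2 * c) g.card
    omega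
  · rw [e]
    exact Y_lce g
  · rw [e]
    exact Y_count g hm hB

end step

theorem base (c : ℕ) : Good (fun n => n) ∅ 0 c (4 * c) 0 0 0 := by
  refine ⟨fun n hn => hn, by simp, by simp, fun p p' len h1 h2 h3 => ?_, by simp⟩
  by_contra hcon
  have := h3 0 (by omega)
  omega

/-- The iteration. -/
theorem iter (c₀ : ℕ) (h : 10 ≤ c₀) (j : ℕ) : ∃ (X : ℕ → ℕ) (P : Finset ℕ) (β m B K : ℕ),
    Good X P j (c₀ ^ (2 ^ j)) β m B K ∧ m ≤ c₀ ^ (2 ^ j) ∧ j + 2 * B ≤ 4 * c₀ ^ (2 ^ j) ∧
      c₀ * K + c₀ ^ (2 ^ j) ≤ 2 ^ j * c₀ ^ (2 ^ j) := by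
  induction j with
  | zero => exact ⟨fun n => n, ∅, _, 0, 0, 0, base _, by simp, by simp, by simp⟩
  | succ j ih =>
    obtain ⟨X, P, β, m, B, K, g, h1, h2, h3⟩ := ih
    have e : c₀ ^ (2 ^ (j + 1)) = c₀ ^ (2 ^ j) * c₀ ^ (2 ^ j) := by
      rw [← pow_add]
      congr 1
      ring
    have h4 : c₀ ≤ c₀ ^ (2 ^ j) := Nat.le_self_pow (by positivity) _
    rw [e]
    refine ⟨_, _, _, _, _, _, step g h1 h2, ?_, ?_, ?_⟩
    · exact Nat.mul_le_mul_right _ (by omega)
    · nlinarith
    · generalize c₀ ^ (2 ^ j) = c at *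
      rw [pow_succ]
      nlinarith

theorem final (J : ℕ) : ∃ (n : ℕ) (s : ℕ → ℕ) (P : Finset ℕ), 1 ≤ n ∧ P ⊆ Finset.range n ∧
    (P.card : ℝ) * Real.logb 2 n ≤ n ∧ J * n ≤ 8 * (S s P n).card + n := by
  obtain ⟨e, he⟩ : ∃ e, e = 4 * J + 6 := ⟨_, rfl⟩
  have h10 : 10 ≤ 2 ^ e := by
    calc 10 ≤ 2 ^ 6 := by norm_num
      _ ≤ 2 ^ e := Nat.pow_le_pow_right (by norm_num) (by omega)
  obtain ⟨X, P, β, m, B, K, g, h1, h2, h3⟩ := iter (2 ^ e) h10 J
  obtain ⟨c, hc⟩ : ∃ c, c = (2 ^ e) ^ (2 ^ J) := ⟨_, rfl⟩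
  rw [← hc] at g h1 h2 h3
  have hcpos : 0 < c := by rw [hc]; positivity
  refine ⟨4 * c, X, P, by omega, fun p hp => Finset.mem_range.2 (g.sub p hp), ?_, ?_⟩
  · have hlog : Real.logb 2 ((4 * c : ℕ) : ℝ) = (2 + e * 2 ^ J : ℕ) := by
      rw [hc, show 4 * (2 ^ e) ^ (2 ^ J) = 2 ^ (2 + e * 2 ^ J) by
        rw [pow_add, ← pow_mul]
        norm_num]
      push_cast
      rw [← Nat.cast_two, Real.logb_pow]
      simp
    rw [hlog]
    have key : P.card * (2 + e * 2 ^ J) ≤ 4 * c := by
      have hJ : 1 ≤ 2 ^ J := Nat.one_le_two_pow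
      have h5 : 2 + e * 2 ^ J ≤ (e + 2) * 2 ^ J := by nlinarith
      have h6 : P.card * (2 + e * 2 ^ J) ≤ K * ((e + 2) * 2 ^ J) := Nat.mul_le_mul g.card h5
      have h7 : 2 ^ e * K ≤ 2 ^ J * c := by omega
      have h8 : (e + 2) * 2 ^ J * 2 ^ J ≤ 2 ^ e := by
        have h9 : J < 2 ^ J := Nat.lt_two_pow_self
        have h10 : 2 ^ e = 64 * (2 ^ J * 2 ^ J * 2 ^ J * 2 ^ J) := by
          rw [he, pow_add, show 4 * J = J + J + J + J by ring, pow_add, pow_add, pow_add]
          norm_num
          ring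
        have h11 : e + 2 ≤ 64 * 2 ^ J := by omega
        have h12 : 1 ≤ 2 ^ J * 2 ^ J := by nlinarith
        calc (e + 2) * 2 ^ J * 2 ^ J ≤ (64 * 2 ^ J) * 2 ^ J * 2 ^ J := by gcongr
          _ = 64 * (2 ^ J * 2 ^ J * 2 ^ J * 1) := by ring
          _ ≤ 64 * (2 ^ J * 2 ^ J * 2 ^ J * 2 ^ J) := by gcongr
          _ = 2 ^ e := h10.symm
      have h9 : 2 ^ e * (K * ((e + 2) * 2 ^ J)) ≤ 2 ^ e * c := by
        calc 2 ^ e * (K * ((e + 2) * 2 ^ J)) = (2 ^ e * K) * ((e + 2) * 2 ^ J) := by ring
          _ ≤ (2 ^ J * c) * ((e + 2) * 2 ^ J) := by gcongr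
          _ = ((e + 2) * 2 ^ J * 2 ^ J) * c := by ring
          _ ≤ 2 ^ e * c := by gcongr
      have h10 : K * ((e + 2) * 2 ^ J) ≤ c := Nat.le_of_mul_le_mul_left h9 (by positivity)
      omega
    exact_mod_cast key
  · have := g.count (4 * c) le_rfl
    omega

/-- For every constant `C` there are a length `n`, a string `s` of length `n` and a set `P` of
positions such that more than `C (n + |P| log₂ n)` right closed repeats of `s` start at positions
in `P`. -/
theorem result (C : ℝ) : ∃ (n : ℕ) (s : ℕ → ℕ) (P : Finset ℕ), 1 ≤ n ∧ P ⊆ Finset.range n ∧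
    C * (n + P.card * Real.logb 2 n) <
      Set.ncard {x : ℕ × ℕ | x.1 ∈ P ∧ RightClosedRepeat s n x.1 x.2} := by
  obtain ⟨J, hJ⟩ := exists_nat_gt (16 * |C| + 1)
  obtain ⟨n, s, P, h1, h2, h3, h4⟩ := final J
  refine ⟨n, s, P, h1, h2, ?_⟩
  have h5 : ((S s P n).card : ℝ) ≤
      Set.ncard {x : ℕ × ℕ | x.1 ∈ P ∧ RightClosedRepeat s n x.1 x.2} := by
    exact_mod_cast S_le s P n
  refine lt_of_lt_of_le ?_ h5
  have h6 : (J : ℝ) * n ≤ 8 * (S s P n).card + n := by exact_mod_cast h4
  have hn : (1 : ℝ) ≤ n := by exact_mod_cast h1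
  have h7 : (0 : ℝ) ≤ P.card * Real.logb 2 n := by
    refine mul_nonneg (Nat.cast_nonneg _) (Real.logb_nonneg (by norm_num) hn)
  have h8 : C * (n + P.card * Real.logb 2 n) ≤ |C| * (2 * n) := by
    calc C * (n + P.card * Real.logb 2 n) ≤ |C| * (n + P.card * Real.logb 2 n) := by
          gcongr
          exact le_abs_self C
      _ ≤ |C| * (2 * n) := by
          gcongr
          linarith
  nlinarith [abs_nonneg C]

end Pool.Agent.Results.MP_b69f9e_co.SuperLinear
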